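import Mathlib
import Pool.Agent.P.MP_9682d1_al.Fin.Final
import Pool.Agent.P.MP_9682d1_al.B5.Five
import Pool.Agent.P.MP_9682d1_al.T.Gen

set_option autoImplicit false

namespace Pool.Agent.Results.MP_9682d1_al.LeastFive

universe u

/-- The least positive integer `m` such that some group has a right `m`-Engel element outside
its Baer radical is `5`. -/
theorem result : IsLeast {m : ℕ | 0 < m ∧ ∃ (G : Type u) (_ : Group G) (a : G),
    (∀ x : G, (fun c : G => c⁻¹ * (x⁻¹ * c * x))^[m] a = 1) ∧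
      a ∉ sSup {H : Subgroup G | IsCyclic H ∧ H.IsSubnormal}} 5 :=
  Pool.Agent.P.MP_9682d1_al.Fin.least Pool.Agent.P.MP_9682d1_al.B5.sp5
    (fun G _ a => Pool.Agent.P.MP_9682d1_al.T.sgen G a)

end Pool.Agent.Results.MP_9682d1_al.LeastFive
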