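import Mathlib
import Pool.Agent.P.MP_9682d1_al.Six.Engel

set_option autoImplicit false

namespace Pool.Agent.Results.MP_9682d1_al.SixEngel

/-- There is a locally finite 6-Engel group of exponent dividing 8 with a right 5-Engel element
of order at most 2 outside the Baer radical. -/
theorem result : ∃ (G : Type) (_ : Group G),
    (∀ S : Set G, S.Finite → (Subgroup.closure S : Set G).Finite) ∧ (∀ g : G, g ^ 8 = 1) ∧
    (∀ x y : G, (fun c : G => c⁻¹ * (y⁻¹ * c * y))^[6] x = 1) ∧
    ∃ a : G, a ^ 2 = 1 ∧ (∀ x : G, (fun c : G => c⁻¹ * (x⁻¹ * c * x))^[5] a = 1) ∧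
      a ∉ sSup {H : Subgroup G | IsCyclic H ∧ H.IsSubnormal} :=
  Pool.Agent.P.MP_9682d1_al.Six.main

end Pool.Agent.Results.MP_9682d1_al.SixEngel
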